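import Pool.Agent.helper27.PC2.Stmt2

/-!
# PC project, second half, module LALG: adjointness of `Rib` and `Low`, numbers of boxes
-/

namespace Pool.Agent.helper27.PC

open Module Polynomial Finset

theorem LALG_mem_addable {a : ℕ} {S : St} {l : Lab} : l ∈ addable a S ↔ l ∈ S ∧ up a l ∉ S := by
  unfold addable; rw [mem_filter]

theorem LALG_ne_up {a : ℕ} (ha : 1 ≤ a) (l : Lab) : l ≠ up a l := by
  intro h
  have := congrArg Prod.snd h
  unfold up at this
  simp only at this
  omega

theorem LALG_dn_up (a : ℕ) (l : Lab) : dn a (up a l) = l := by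
  unfold dn up; simp

theorem LALG_up_dn {a : ℕ} {l : Lab} (h : a ≤ l.2) : up a (dn a l) = l := by
  unfold dn up
  simp only
  rw [Nat.sub_add_cancel h]

theorem LALG_back {a : ℕ} (ha : 1 ≤ a) {S : St} {y : Lab} (hy : y ∈ S) (hay : a ≤ y.2)
    (hd : dn a y ∉ S) : dn a y ∈ addable a (insert (dn a y) (S.erase y)) ∧
      move a (insert (dn a y) (S.erase y)) (dn a y) = S := by
  have hne : y ≠ dn a y := by
    intro h
    exact LALG_ne_up ha (dn a y) (by rw [LALG_up_dn hay]; exact h.symm)
  constructor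
  · rw [LALG_mem_addable, LALG_up_dn hay]
    refine ⟨mem_insert_self _ _, ?_⟩
    rw [mem_insert, mem_erase]
    rintro (h | h)
    · exact hne h
    · exact h.1 rfl
  · unfold move
    rw [LALG_up_dn hay, erase_insert (fun h => hd (mem_of_mem_erase h)), insert_erase hy]

theorem LALG_cnt {a : ℕ} {S : St} {l : Lab} : cnt (move a S l) l a = cnt S l a := by
  unfold cnt
  congr 1
  ext z
  rw [mem_filter, mem_filter]
  unfold move
  rw [mem_insert, mem_erase]
  constructor
  · rintro ⟨h | h, h2⟩
    · exfalso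
      rw [h] at h2
      unfold up at h2
      simp only at h2
      omega
    · exact ⟨h.2, h2⟩
  · rintro ⟨h, h2⟩
    refine ⟨Or.inr ⟨?_, h⟩, h2⟩
    rintro rfl
    omega

section lin

variable {R : Type} [CommRing R]

/-- matrix entries of `Rib` -/
def LALG_kR (w : Lab → R) (a : ℕ) (S T : St) : R :=
  ∑ l ∈ addable a S, if move a S l = T then (-1) ^ cnt S l a * w l else 0

/-- matrix entries of `Low` -/
def LALG_kL (w : Lab → R) (a : ℕ) (S T : St) : R :=
  ∑ y ∈ S.filter (fun y => a ≤ y.2 ∧ dn a y ∉ S),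
    if insert (dn a y) (S.erase y) = T then (-1) ^ cnt S (dn a y) a * w (dn a y) else 0

theorem LALG_kernel (w : Lab → R) {a : ℕ} (ha : 1 ≤ a) (S T : St) :
    LALG_kR w a S T = LALG_kL w a T S := by
  unfold LALG_kR LALG_kL
  rw [← sum_filter, ← sum_filter]
  refine sum_bij' (fun l _ => up a l) (fun y _ => dn a y) ?_ ?_ ?_ ?_ ?_
  · intro l hl
    rw [mem_filter, LALG_mem_addable] at hl
    obtain ⟨⟨h1, h2⟩, h3⟩ := hl
    rw [mem_filter, mem_filter, LALG_dn_up]
    subst h3
    unfold move
    refine ⟨⟨mem_insert_self _ _, ?_, ?_⟩, ?_⟩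
    · unfold up; simp
    · rw [mem_insert, mem_erase]
      rintro (h | h)
      · exact LALG_ne_up ha l h
      · exact h.1 rfl
    · rw [erase_insert (fun h => h2 (mem_of_mem_erase h)), insert_erase h1]
  · intro y hy
    rw [mem_filter, mem_filter] at hy
    obtain ⟨⟨h1, h2, h3⟩, h4⟩ := hy
    rw [mem_filter]
    have := LALG_back ha h1 h2 h3
    rw [h4] at this
    exact this
  · intro l _; exact LALG_dn_up a l
  · intro y hy
    rw [mem_filter, mem_filter] at hy
    exact LALG_up_dn hy.1.2.1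
  · intro l hl
    rw [mem_filter] at hl
    rw [LALG_dn_up, ← hl.2, LALG_cnt]

theorem LALG_Rib_apply (w : Lab → R) (a : ℕ) (u : St →₀ R) (T : St) :
    Rib w a u T = ∑ S ∈ u.support, u S * LALG_kR w a S T := by
  unfold Rib
  rw [Finsupp.linearCombination_apply, Finsupp.sum_apply]
  unfold Finsupp.sum
  apply sum_congr rfl
  intro S _
  beta_reduce
  rw [Finsupp.smul_apply, smul_eq_mul, Finsupp.finsetSum_apply]
  congr 1
  apply sum_congr rfl
  intro l _
  rw [Finsupp.single_apply]

theorem LALG_Low_apply (w : Lab → R) (a : ℕ) (u : St →₀ R) (T : St) :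
    Low w a u T = ∑ S ∈ u.support, u S * LALG_kL w a S T := by
  unfold Low
  rw [Finsupp.linearCombination_apply, Finsupp.sum_apply]
  unfold Finsupp.sum
  apply sum_congr rfl
  intro S _
  beta_reduce
  rw [Finsupp.smul_apply, smul_eq_mul, Finsupp.finsetSum_apply]
  congr 1
  apply sum_congr rfl
  intro l _
  rw [Finsupp.single_apply]

theorem LALG_dot (u u' : St →₀ R) (E : Finset St) (hE : u.support ⊆ E) :
    dot u u' = ∑ S ∈ E, u S * u' S := by
  unfold dot
  exact Finsupp.sum_of_support_subset _ hE _ fun S _ => by rw [zero_mul]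

end lin

theorem LA : LA_stmt := by
  classical
  intro R _ w a u u' ha
  rw [LALG_dot (Rib w a u) u' ((Rib w a u).support ∪ u'.support) subset_union_left,
    LALG_dot u (Low w a u') u.support Subset.rfl]
  have h1 : ∀ T, Rib w a u T * u' T = ∑ S ∈ u.support, u S * (u' T * LALG_kR w a S T) := by
    intro T
    rw [LALG_Rib_apply, sum_mul]
    exact sum_congr rfl fun S _ => by ring
  rw [sum_congr rfl fun T _ => h1 T, sum_comm]
  apply sum_congr rfl
  intro S _
  rw [← mul_sum, LALG_Low_apply]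
  congr 1
  rw [← sum_subset (subset_union_right (s₁ := (Rib w a u).support) (s₂ := u'.support))]
  · exact sum_congr rfl fun T _ => by rw [LALG_kernel w ha]
  · intro T _ hT
    rw [Finsupp.notMem_support_iff.1 hT, zero_mul]

theorem LALG_good_back {m k a : ℕ} {S : St} {l : Lab} (hl : l ∈ addable a S)
    (hS : SD_Good m k (move a S l)) : a ≤ k ∧ SD_Good m (k - a) S := by
  obtain ⟨h1, h2⟩ := SD_add hl
  have hc : ∀ b, (SD_pos b S).card = m := by
    intro b
    have h := hS.1 b
    rw [SD_pos_move] at h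
    split_ifs at h with hb
    · rw [hb] at h ⊢
      rw [card_insert_of_notMem (fun h => h2 (mem_of_mem_erase h)), card_erase_of_mem h1] at h
      have : 0 < (SD_pos l.1 S).card := card_pos.2 ⟨_, h1⟩
      omega
    · exact h
  have hz : (∑ p ∈ SD_pos true (move a S l), (p : ℤ)) + ∑ p ∈ SD_pos false (move a S l), (p : ℤ) =
      ∑ p ∈ SD_pos true S, (p : ℤ) + ∑ p ∈ SD_pos false S, (p : ℤ) + a := by
    obtain ⟨b, p⟩ := l
    simp only at h1 h2
    cases b
    · rw [SD_pos_move true, SD_pos_move false, if_neg (by simp), if_pos rfl,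
        SD_sum_move (fun x : ℕ => (x : ℤ)) h1 h2]
      push_cast; ring
    · rw [SD_pos_move false, SD_pos_move true, if_pos rfl, if_neg (by simp),
        SD_sum_move (fun x : ℕ => (x : ℤ)) h1 h2]
      push_cast; ring
  have hz' : ((∑ p ∈ SD_pos true (move a S l), p + ∑ p ∈ SD_pos false (move a S l), p : ℕ) : ℤ) =
      ((∑ p ∈ SD_pos true S, p + ∑ p ∈ SD_pos false S, p + a : ℕ) : ℤ) := by
    push_cast; exact hz
  have h3 := Int.natCast_inj.1 hz'
  have h4 := hS.2
  have h5 := SD_minsum (SD_pos true S)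
  have h6 := SD_minsum (SD_pos false S)
  rw [hc] at h5 h6
  exact ⟨by omega, hc, by omega⟩

theorem LG : LG_stmt := by
  intro R _ w n k a u ha hu
  have hL : ∀ T, Low w a u T ≠ 0 → a ≤ k ∧ SD_Good n (k - a) T := by
    intro T hT
    rw [LALG_Low_apply] at hT
    obtain ⟨S, hS, h1⟩ := exists_ne_zero_of_sum_ne_zero hT
    unfold LALG_kL at h1
    obtain ⟨y, hy, h2⟩ := exists_ne_zero_of_sum_ne_zero (right_ne_zero_of_mul h1)
    split_ifs at h2 with h3
    · rw [mem_filter] at hy
      have h4 := LALG_back ha hy.1 hy.2.1 hy.2.2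
      rw [h3] at h4
      exact LALG_good_back h4.1 (by rw [h4.2]; exact hu S hS)
    · exact absurd rfl h2
  refine ⟨?_, ?_, ?_⟩
  · intro T hT
    rw [Finsupp.mem_support_iff, LALG_Rib_apply] at hT
    obtain ⟨S, hS, h1⟩ := exists_ne_zero_of_sum_ne_zero hT
    unfold LALG_kR at h1
    obtain ⟨l, hl, h2⟩ := exists_ne_zero_of_sum_ne_zero (right_ne_zero_of_mul h1)
    split_ifs at h2 with h3
    · rw [← h3]; exact SD_good_move (hu S hS) hl
    · exact absurd rfl h2
  · intro _ T hT
    exact (hL T (Finsupp.mem_support_iff.1 hT)).2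
  · intro hk
    ext T
    by_contra hT
    have := (hL T hT).1
    omega

end Pool.Agent.helper27.PC
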