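import Pool.Agent.helper27.PC2.Stmt2

/-!
# PC project, second half, module NU: all positive cycles of length `1`
-/

namespace Pool.Agent.helper27.PC

open Module Polynomial Finset

/-! ### ends -/

theorem NU_ends_add (m : ℕ) : ∀ (n : ℕ) (S M T : St), M ∈ ends n S → T ∈ ends m M →
    T ∈ ends (n + m) S := by
  intro n
  induction n with
  | zero =>
    intro S M T h1 h2
    simp only [ends, mem_singleton] at h1
    subst h1
    rwa [zero_add]
  | succ n ih =>
    intro S M T h1 h2
    simp only [ends, mem_biUnion] at h1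
    obtain ⟨l, hl, h3⟩ := h1
    rw [show n + 1 + m = (n + m) + 1 by omega]
    simp only [ends, mem_biUnion]
    exact ⟨l, hl, ih _ _ _ h3 h2⟩

theorem NU_mem_addable {a : ℕ} {S : St} {l : Lab} : l ∈ addable a S ↔ l ∈ S ∧ up a l ∉ S := by
  unfold addable; rw [mem_filter]

theorem NU_ends_one {S : St} {l : Lab} (hl : l ∈ addable 1 S) : move 1 S l ∈ ends 1 S := by
  show move 1 S l ∈ (addable 1 S).biUnion fun l => ends 0 (move 1 S l)
  rw [mem_biUnion]
  exact ⟨l, hl, by simp [ends]⟩

/-- a ribbon is added box by box -/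
theorem NU_move_mem (a : ℕ) : ∀ (S : St) (l : Lab), l ∈ addable (a + 1) S →
    move (a + 1) S l ∈ ends (a + 1) S := by
  induction a with
  | zero => intro S l hl; exact NU_ends_one hl
  | succ a ih =>
    intro S l hl
    rw [NU_mem_addable] at hl
    obtain ⟨h1, h2⟩ := hl
    set y := up (a + 1) l with hy
    have hy1 : up 1 y = up (a + 1 + 1) l := by
      rw [hy]; unfold up; simp only [Prod.mk.injEq, true_and]; omega
    have hly : l ≠ y := by
      intro h
      have := congrArg Prod.snd h
      rw [hy] at this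
      unfold up at this
      simp only at this
      omega
    have hlu : l ≠ up (a + 1 + 1) l := by
      intro h
      have := congrArg Prod.snd h
      unfold up at this
      simp only at this
      omega
    have hyu : y ≠ up (a + 1 + 1) l := by
      intro h
      have := congrArg Prod.snd h
      rw [hy] at this
      unfold up at this
      simp only at this
      omega
    by_cases hyS : y ∈ S
    · have hya : y ∈ addable 1 S := NU_mem_addable.2 ⟨hyS, by rw [hy1]; exact h2⟩
      have h3 : l ∈ addable (a + 1) (move 1 S y) := by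
        rw [NU_mem_addable]
        unfold move
        rw [hy1]
        constructor
        · exact mem_insert_of_mem (mem_erase.2 ⟨hly, h1⟩)
        · rw [← hy, mem_insert, mem_erase]
          rintro (h | h)
          · exact hyu h
          · exact h.1 rfl
      have h4 := ih (move 1 S y) l h3
      have h5 : move (a + 1) (move 1 S y) l = move (a + 1 + 1) S l := by
        unfold move
        rw [hy1, ← hy]
        ext z
        simp only [mem_insert, mem_erase]
        constructor
        · rintro (h | ⟨h, h' | h'⟩)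
          · rw [h]; right; exact ⟨fun h => hly h.symm, hyS⟩
          · left; exact h'
          · right; exact ⟨h, h'.2⟩
        · rintro (h | ⟨h, h'⟩)
          · right; exact ⟨by rw [h]; exact fun h => hlu h.symm, Or.inl h⟩
          · by_cases hz : z = y
            · left; exact hz
            · right; exact ⟨h, Or.inr ⟨hz, h'⟩⟩
      rw [h5] at h4
      have h6 := NU_ends_add (a + 1) 1 S _ _ (NU_ends_one hya) h4
      rwa [show 1 + (a + 1) = a + 1 + 1 by omega] at h6
    · have hla : l ∈ addable (a + 1) S := NU_mem_addable.2 ⟨h1, hyS⟩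
      have h4 := ih S l hla
      have hyb : y ∈ addable 1 (move (a + 1) S l) := by
        rw [NU_mem_addable, hy1]
        unfold move
        rw [← hy]
        refine ⟨mem_insert_self _ _, ?_⟩
        rw [mem_insert, mem_erase]
        rintro (h | h)
        · exact hyu h.symm
        · exact h2 h.2
      have h5 : move 1 (move (a + 1) S l) y = move (a + 1 + 1) S l := by
        unfold move
        rw [hy1, ← hy]
        ext z
        simp only [mem_insert, mem_erase]
        constructor
        · rintro (h | ⟨h, h' | h'⟩)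
          · left; exact h
          · exact absurd h' h
          · right; exact h'
        · rintro (h | ⟨h, h'⟩)
          · left; exact h
          · right
            exact ⟨fun hz => hyS (hz ▸ h'), Or.inr ⟨h, h'⟩⟩
      have h6 := NU_ends_add 1 (a + 1) S _ _ h4 (NU_ends_one hyb)
      rwa [h5] at h6

/-! ### supports -/

theorem NU_Rib_support {R : Type*} [CommRing R] (w : Lab → R) (a : ℕ) (u : St →₀ R) {T : St}
    (h : Rib w a u T ≠ 0) : ∃ S, u S ≠ 0 ∧ ∃ l ∈ addable a S, move a S l = T := by
  unfold Rib at h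
  rw [Finsupp.linearCombination_apply, Finsupp.sum_apply] at h
  unfold Finsupp.sum at h
  obtain ⟨S, hS, h1⟩ := exists_ne_zero_of_sum_ne_zero h
  beta_reduce at h1
  rw [Finsupp.smul_apply, smul_eq_mul, Finsupp.finsetSum_apply] at h1
  obtain ⟨l, hl, h2⟩ := exists_ne_zero_of_sum_ne_zero (right_ne_zero_of_mul h1)
  refine ⟨S, Finsupp.mem_support_iff.1 hS, l, hl, ?_⟩
  by_contra h3
  exact h2 (Finsupp.single_eq_of_ne (fun h => h3 h.symm))

theorem NU_Rib_ends {R : Type*} [CommRing R] (w : Lab → R) {a : ℕ} (ha : 1 ≤ a) (k : ℕ) (S₀ : St)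
    (u : St →₀ R) (hu : ∀ S, u S ≠ 0 → S ∈ ends k S₀) (T : St) (h : Rib w a u T ≠ 0) :
    T ∈ ends (k + a) S₀ := by
  obtain ⟨S, hS, l, hl, rfl⟩ := NU_Rib_support w a u h
  obtain ⟨b, rfl⟩ : ∃ b, a = b + 1 := ⟨a - 1, by omega⟩
  exact NU_ends_add _ _ _ _ _ (hu S hS) (NU_move_mem b S l hl)

theorem NU_fock_ends (t : Bool) (m : ℕ) (S₀ : St) (l : List ℕ) : (∀ a ∈ l, 1 ≤ a) →
    ∀ (k : ℕ) (u : St →₀ ℤ[X]), (∀ S, u S ≠ 0 → S ∈ ends k S₀) →
    ∀ S, fockT t m k l u S ≠ 0 → S ∈ ends (k + l.sum) S₀ := by
  induction l with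
  | nil => intro _ k u hu S hS; simpa [fockT] using hu S hS
  | cons a l ih =>
    intro hl k u hu S hS
    rw [fockT] at hS
    have h := ih (fun b hb => hl b (by simp [hb])) (k + a) (Rib (wT t m k a) a u)
      (fun S h => NU_Rib_ends _ (hl a (by simp)) k S₀ u hu S h) S hS
    rwa [List.sum_cons, ← add_assoc]

theorem NU_vecT_ends (t : Bool) (m : ℕ) (l : List ℕ) (hl : ∀ a ∈ l, 1 ≤ a) (S : St)
    (hS : vecT t m l S ≠ 0) : S ∈ ends l.sum (vac m) := by
  have h := NU_fock_ends t m (vac m) l hl 0 (Finsupp.single (vac m) 1) (by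
    intro S hS
    by_cases h : S = vac m
    · simp [ends, h]
    · exact absurd (Finsupp.single_eq_of_ne h) hS) S hS
  rwa [zero_add] at h

theorem NU_pow_ends {R : Type*} [CommRing R] (w : Lab → R) (k : ℕ) (S₀ : St) (j : ℕ) :
    ∀ (u : St →₀ R), (∀ S, u S ≠ 0 → S ∈ ends k S₀) →
    ∀ S, ((Rib w 1) ^ j) u S ≠ 0 → S ∈ ends (k + j) S₀ := by
  induction j with
  | zero => intro u hu S hS; simpa using hu S hS
  | succ j ih =>
    intro u hu S hS
    rw [pow_succ', Module.End.mul_apply] at hS
    have := NU_Rib_ends w le_rfl (k + j) S₀ _ (fun S h => ih u hu S h) S hS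
    rwa [← add_assoc]

/-! ### powers of the operator that adds a box -/

theorem NU_cnt (S : St) (l : Lab) : cnt S l 1 = 0 := by
  unfold cnt
  rw [card_eq_zero, filter_eq_empty_iff]
  intro y _ h
  omega

theorem NU_card_succ (j : ℕ) (M S : St) :
    (paths (j + 1) M S).card = ∑ l ∈ addable 1 M, (paths j (move 1 M l) S).card := by
  rw [paths, card_biUnion]
  · apply sum_congr rfl
    intro l _
    exact card_image_of_injective _ List.cons_injective
  · intro x _ y _ hxy
    rw [Function.onFun, disjoint_left]
    intro w h1 h2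
    rw [mem_image] at h1 h2
    obtain ⟨w1, -, rfl⟩ := h1
    obtain ⟨w2, -, h3⟩ := h2
    exact hxy (List.cons.inj h3).1.symm

theorem NU_pow_single {R : Type*} [CommRing R] (j : ℕ) : ∀ (M S : St),
    ((Rib (fun _ => (1 : R)) 1) ^ j) (Finsupp.single M 1) S = ((paths j M S).card : R) := by
  induction j with
  | zero =>
    intro M S
    rw [pow_zero, Module.End.one_apply, paths]
    by_cases h : M = S
    · subst h; simp
    · rw [Finsupp.single_eq_of_ne (fun h' => h h'.symm), if_neg h]; simp
  | succ j ih =>
    intro M S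
    rw [pow_succ, Module.End.mul_apply]
    have e : Rib (fun _ => (1 : R)) 1 (Finsupp.single M 1) =
        ∑ l ∈ addable 1 M, Finsupp.single (move 1 M l) (1 : R) := by
      unfold Rib
      rw [Finsupp.linearCombination_single, one_smul]
      apply sum_congr rfl
      intro l _
      rw [NU_cnt, pow_zero, mul_one]
    rw [e, map_sum, Finsupp.finsetSum_apply, NU_card_succ, Nat.cast_sum]
    exact sum_congr rfl fun l _ => ih _ _

theorem NU_pow_apply {R : Type*} [CommRing R] (j : ℕ) (u : St →₀ R) (E : Finset St)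
    (hE : ∀ M, u M ≠ 0 → M ∈ E) (S : St) :
    ((Rib (fun _ => (1 : R)) 1) ^ j) u S = ∑ M ∈ E, u M * ((paths j M S).card : R) := by
  have e : u = ∑ M ∈ E, u M • Finsupp.single M (1 : R) := by
    ext T
    rw [Finsupp.finsetSum_apply]
    simp only [Finsupp.smul_apply, smul_eq_mul, Finsupp.single_apply, mul_ite, mul_one, mul_zero]
    rw [sum_ite_eq']
    split_ifs with h
    · rfl
    · by_contra h1; exact h (hE T h1)
  conv_lhs => rw [e]
  rw [map_sum, Finsupp.finsetSum_apply]
  apply sum_congr rfl
  intro M _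
  rw [map_smul, Finsupp.smul_apply, smul_eq_mul, NU_pow_single]

theorem NU_posWord (j : ℕ) : ∀ k, posWord k (List.replicate j 1) = [] := by
  induction j with
  | zero => intro k; rfl
  | succ j ih => intro k; rw [List.replicate_succ, posWord, ih]; rfl

theorem NU_trP {K : Type*} [Field K] (j : ℕ) (M S : St) :
    trP j M S (1 : Module.End K (List Lab →₀ K)) = ((paths j M S).card : K) := by
  unfold trP
  rw [card_eq_sum_ones, Nat.cast_sum]
  apply sum_congr rfl
  intro w _
  rw [Module.End.one_apply, Finsupp.single_eq_same, Nat.cast_one]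

theorem NU (hCH2 : CH2_stmt) : NU_stmt := by
  intro t K _ v hv n β j hT
  obtain ⟨h1, h2, h3, h4⟩ := hT
  have hsum : (List.replicate j 1).sum = j := by simp
  have hlen : (List.replicate j 1).length = j := by simp
  rw [hsum] at h4
  have hE : ∀ M, vecT t n β M ≠ 0 → M ∈ ends β.sum (vac n) := NU_vecT_ends t n β h1
  have key : ∀ S, ∑ M ∈ ends β.sum (vac n), (vecT t n β M).eval₂ (Int.castRingHom K) (v ^ 2) *
      (v ^ ((List.replicate j 1).sum - (List.replicate j 1).length) *
        trP (List.replicate j 1).sum M S (1 : Module.End K (List Lab →₀ K))) =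
      ((((Rib (fun _ => (1 : ℤ[X])) 1) ^ j) (vecT t n β)) S).eval₂ (Int.castRingHom K) (v ^ 2) := by
    intro S
    rw [hsum, hlen, Nat.sub_self, pow_zero, NU_pow_apply j _ _ hE S, ← Polynomial.coe_eval₂RingHom,
      map_sum]
    apply sum_congr rfl
    intro M _
    rw [one_mul, NU_trP, map_mul, map_natCast]
  refine ⟨fun S => ?_, ?_⟩
  · have hc := hCH2 t K v hv n β (List.replicate j 1) ⟨h1, h2, h3, by rw [hsum]; exact h4⟩ S
    have e1 : opWQ (Qt t v) v n (posWord 0 (List.replicate j 1)) = 1 := by
      rw [NU_posWord]; rfl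
    have e2 : opWQ (Qt t v) v n (posWord 0 (List.replicate j 1)).reverse = 1 := by
      rw [NU_posWord]; rfl
    rw [e1, e2, key S] at hc
    exact hc
  · unfold PU nrm
    rw [Finsupp.sum_of_support_subset]
    · intro S hS
      have := NU_pow_ends (fun _ => (1 : ℤ[X])) β.sum (vac n) j (vecT t n β) hE S
        (Finsupp.mem_support_iff.1 hS)
      rwa [h4] at this
    · intro S _
      simp

end Pool.Agent.helper27.PC
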